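import Pool.Agent.H63.ME.Ex

set_option autoImplicit false
set_option linter.unusedSectionVars false
open scoped Manifold ContDiff Topology
open Set Metric Filter

/-! The fibres over the points `t` with `h t ≠ 0` of the family of `Ex` do not have the
meromorphic extension property, and they are all biholomorphic. -/

namespace Pool.Agent.H63.ME

open Pool.Agent.Helper417.Mer
open Pool.Agent.Helper417.Mer.Opn (conj_lam lam_zpow_inj mk2 norm_mk2 mk2_eta gf eta four_sub_ne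
  gf_eq_iff gf_ne connected_compl1 mk2_mem mk2_diff eta_cont An sn tendsto_pow tendsto_An tendsto_sn
  tendsto_mk2 gf_sn)

variable {m : ℕ} {h : ℂ → ℂ} (hh : DifferentiableOn ℂ h (ball 0 1))

variable (m) (h) in
/-- the lift of the map -/
noncomputable def fl (t : ℂ) (p : V2) : EE m := ((t, h t * gf (p.1 0) p.2, p.2, 0), 0)

lemma fl_diff (t : ℂ) : Differentiable ℂ (fl m h t) := by
  have h0 : Differentiable ℂ (fun p : V2 => p.1 0) := by fun_prop
  unfold fl gf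
  fun_prop

lemma wf_fl (t : ℂ) (p : V2) : wf h (fl m h t p) =
    h t * (gf (p.1 0) p.2 - (starRingEnd ℂ) p.2) := by
  simp only [wf, fl]
  ring

lemma fl_mem {t : ℂ} (ht : ‖t‖ < 1) (ht0 : h t ≠ 0) {p : V2}
    (hp : gf (p.1 0) p.2 ≠ (starRingEnd ℂ) p.2) : fl m h t p ∈ UU h := by
  refine ⟨?_, ht⟩
  rw [wf_fl]
  exact mul_ne_zero ht0 (sub_ne_zero.2 hp)

variable (m) in
/-- the map -/
noncomputable def f (t : ℂ) (p : V2) : (fam hh m).Tot := (fam hh m).quot.Q (fl m h t p)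

lemma f_mdiff {t : ℂ} (ht : ‖t‖ < 1) (ht0 : h t ≠ 0) {p : V2}
    (hp : gf (p.1 0) p.2 ≠ (starRingEnd ℂ) p.2) :
    letI := (fam hh m).quot.cs
    MDifferentiableAt 𝓘(ℂ, V2) 𝓘(ℂ, EE m) (f m hh t) p := by
  let _ := (fam hh m).quot.cs
  exact (fam hh m).quot.mdifferentiableAt_Q (fl_diff t p) (fl_mem ht ht0 hp)

lemma f_proj {t : ℂ} (ht : ‖t‖ < 1) (ht0 : h t ≠ 0) {p : V2}
    (hp : gf (p.1 0) p.2 ≠ (starRingEnd ℂ) p.2) : (fam hh m).proj (f m hh t p) = t := by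
  show (fam hh m).proj ((fam hh m).quot.Q (fl m h t p)) = t
  rw [(fam hh m).proj_Q (fl_mem ht ht0 hp)]
  rfl

lemma Q_act_par (g : Gam) {t : ℂ} (ht : ‖t‖ < 1) {q : ℂ × ℂ × ℂ} (hq : q.1 ≠ 0) :
    (fam hh m).quot.Q (par h t q 0) = (fam hh m).quot.Q (par h t ((lam : ℂ) ^ g.k * q.1,
      (lam : ℂ) ^ g.k * q.2.1 + g.a, (mu : ℂ) ^ g.k * q.2.2 + g.b) 0) := by
  have h1 := act_par (h := h) (m := m) (g, Multiplicative.ofAdd 0) t q 0
  have h2 : (0 : Fin m → ℂ) + tv (Multiplicative.toAdd ((g, Multiplicative.ofAdd 0) : GG m).2) = 0 := by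
    simp [tv_zero]
  rw [h2] at h1
  have h3 := (fam hh m).Q_act ((g, Multiplicative.ofAdd 0) : GG m) (par_mem ht hq 0)
  exact h3.symm.trans (congrArg _ h1)

/-- Two points of the fibre which differ by a real translation in the first direction. -/
lemma Q_par_ne {t : ℂ} (ht : ‖t‖ < 1) (ht0 : h t ≠ 0) (y : ℂ × ℂ) :
    (fam hh m).quot.Q (par h t (h t, y.1 + 1, y.2) 0) ≠
      (fam hh m).quot.Q (par h t (h t, y.1, y.2) 0) := by
  intro he
  obtain ⟨g, hg⟩ := (fam hh m).Q_eq_iff (x := par h t (h t, y.1 + 1, y.2) 0)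
    (y := par h t (h t, y.1, y.2) 0) (par_mem ht ht0 0) (par_mem ht ht0 0) he
  have hg' : par h t (h t, y.1 + 1, y.2) 0 = act h g (par h t (h t, y.1, y.2) (0 : Fin m → ℂ)) := hg
  rw [act_par] at hg'
  have h1 := congrArg (wf h) hg'
  rw [wf_par, wf_par] at h1
  have hk : g.1.k = 0 := by
    apply lam_zpow_inj
    have h2 : (lam : ℂ) ^ g.1.k * h t = (lam : ℂ) ^ (0 : ℤ) * h t := by
      rw [zpow_zero, one_mul]; exact h1.symm
    exact mul_right_cancel₀ ht0 h2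
  have h2 := congrArg (fun q : EE m => q.1.2.2.1) hg'
  have h3 := congrArg (fun q : EE m => q.1.2.2.2) hg'
  simp only [par, hk, zpow_zero, one_mul] at h2 h3
  have ha : g.1.a = 1 := (add_left_cancel h2).symm
  have hb : g.1.b = 0 := by
    have : y.2 + 0 = y.2 + g.1.b := by rw [add_zero]; exact h3
    exact (add_left_cancel this).symm
  have hm := g.1.mem
  rw [ha, hb] at hm
  exact one_ne_zero (Lat.eq_zero_of_snd hm)

lemma f_sn {t : ℂ} (ht : ‖t‖ < 1) (ht0 : h t ≠ 0) {a c : ℂ} {n : ℕ} (hA : ‖An a c n‖ < 1) :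
    f m hh t (mk2 (sn a c n) (An a c n)) =
      (fam hh m).quot.Q (par h t (h t, (lam : ℂ) ^ n * a + c, 0) 0) := by
  have hl : (lam : ℂ)⁻¹ ^ n ≠ 0 := pow_ne_zero _ (inv_ne_zero lamC_ne)
  have hll : (lam : ℂ) ^ n * (lam : ℂ)⁻¹ ^ n = 1 := by
    rw [← mul_pow, mul_inv_cancel₀ lamC_ne, one_pow]
  have h1 : fl m h t (mk2 (sn a c n) (An a c n)) =
      par h t (h t * (lam : ℂ)⁻¹ ^ n, An a c n, 0) 0 := by
    have h2 : fl m h t (mk2 (sn a c n) (An a c n)) =
      ((t, h t * gf (sn a c n) (An a c n), An a c n, 0), 0) := rfl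
    rw [h2, gf_sn hA]
    simp only [par]
    refine Prod.ext (Prod.ext rfl (Prod.ext ?_ rfl)) rfl
    simp only
    ring
  show (fam hh m).quot.Q (fl m h t (mk2 (sn a c n) (An a c n))) = _
  rw [h1, Q_act_par hh (Gam.mk n 0 0 Lat.zero) ht (mul_ne_zero ht0 hl)]
  congr 2
  have hk : (Gam.mk n 0 0 Lat.zero).k = n := rfl
  have ha : (Gam.mk n 0 0 Lat.zero).a = 0 := rfl
  have hb : (Gam.mk n 0 0 Lat.zero).b = 0 := rfl
  rw [hk, ha, hb, zpow_natCast]
  refine Prod.ext ?_ (Prod.ext ?_ ?_)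
  · simp only
    linear_combination h t * hll
  · simp only [An]
    linear_combination c * hll
  · simp

/-- The fibres over the points `t` with `h t ≠ 0` do not have the meromorphic extension
property. -/
theorem not_hasMeromorphicExtension {t : ℂ} (ht : ‖t‖ < 1) (ht0 : h t ≠ 0) :
    letI := (fam hh m).quot.cs
    ¬ HasMeromorphicExtension (EE m) ((fam hh m).proj ⁻¹' {t}) := by
  let _ := (fam hh m).quot.cs
  have hT2 := (fam hh m).t2
  have hMan : IsManifold 𝓘(ℂ, EE m) ω (fam hh m).Tot := (fam hh m).quot.isManifold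
  have hMan1 : IsManifold 𝓘(ℂ, EE m) 1 (fam hh m).Tot := IsManifold.of_le (n := ω) le_top
  intro hext
  -- the map on the Hartogs figure
  have hmer : IsMeromorphicMap (EE m) (hartogs 1 (1 / 100)) ((fam hh m).proj ⁻¹' {t}) ∅
      (f m hh t) := by
    have hmd : MDifferentiableOn 𝓘(ℂ, V2) 𝓘(ℂ, EE m) (f m hh t) (hartogs 1 (1 / 100)) :=
      fun p hp => (f_mdiff hh ht ht0 (gf_ne hp)).mdifferentiableWithinAt
    refine ⟨⟨empty_subset _, fun x hx => ⟨hartogs 1 (1 / 100), isOpen_hartogs _ _, hx, subset_rfl,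
      1, fun _ _ => 1, mdifferentiableOn_const, ?_⟩⟩, fun p hp => hp.elim, ?_, ?_, ?_⟩
    · ext y
      constructor
      · rintro ⟨h, -⟩; exact h.elim
      · rintro ⟨-, h⟩
        have := congrFun h 0
        simp at this
    · rw [sdiff_empty]; exact hmd
    · rintro p ⟨hp, -⟩
      exact f_proj hh ht ht0 (gf_ne hp)
    · rw [sdiff_empty]
      exact graph_analytic (isOpen_hartogs _ _) hmd
  obtain ⟨B, F, hF, hFf⟩ := hext 1 (1 / 100) (by norm_num) (by norm_num) ∅ (f m hh t) hmer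
  have hDo : IsOpen (polydisc 1) := isOpen_polydisc 1
  have hDB : IsOpen (polydisc 1 \ B) := isOpen_diff_of_analytic hF.analytic
  -- `F = f` off the holes
  have hEq : ∀ s A : ℂ, ‖s‖ < 1 → ‖A‖ < 1 → mk2 s A ∉ B → s ≠ eta A →
      F (mk2 s A) = f m hh t (mk2 s A) := by
    intro s A hs hA hB hsA
    set Bd : Set ℂ := {s | mk2 s A ∈ B} ∪ {eta A} with hBd
    have hcont : Continuous (fun s => mk2 s A) := (mk2_diff A).continuous
    have hthin : ∀ x ∈ ball (0 : ℂ) 1, ∃ W : Set ℂ, IsOpen W ∧ x ∈ W ∧ Bd ∩ W ⊆ {x} := by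
      intro x hx
      have hxD : mk2 x A ∈ polydisc 1 := mk2_mem.2 ⟨by simpa using hx, hA⟩
      obtain ⟨W, hW, hxW, -, hBW⟩ := discrete hF.analytic hF.codim hxD
      have key : ∀ y, y ∈ {s | mk2 s A ∈ B} → mk2 y A ∈ W → y = x := by
        intro y hy hyW
        have h1 : mk2 y A = mk2 x A := hBW ⟨hy, hyW⟩
        exact congrFun (congrArg Prod.fst h1) 0
      by_cases hxp : x = eta A
      · refine ⟨(fun s => mk2 s A) ⁻¹' W, hW.preimage hcont, hxW, ?_⟩
        rintro y ⟨hy | hy, hyW⟩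
        · exact key y hy hyW
        · rw [hxp]; exact hy
      · refine ⟨(fun s => mk2 s A) ⁻¹' W ∩ {eta A}ᶜ,
          (hW.preimage hcont).inter isOpen_compl_singleton, ⟨hxW, hxp⟩, ?_⟩
        rintro y ⟨hy | hy, hyW, hyp⟩
        · exact key y hy hyW
        · exact absurd hy hyp
    obtain ⟨hLo, hLc, hLd⟩ := connected_compl1 isOpen_ball (convex_ball _ _)
      ⟨0, mem_ball_self one_pos⟩ hthin
    have hmemL : ∀ x ∈ ball (0 : ℂ) 1 \ Bd, mk2 x A ∈ polydisc 1 \ B ∧ x ≠ eta A := by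
      rintro x ⟨hx1, hx2⟩
      exact ⟨⟨mk2_mem.2 ⟨by simpa using hx1, hA⟩, fun h => hx2 (Or.inl h)⟩,
        fun h => hx2 (Or.inr h)⟩
    have hmF : MDifferentiableOn 𝓘(ℂ, ℂ) 𝓘(ℂ, EE m) (fun x => F (mk2 x A))
        (ball (0 : ℂ) 1 \ Bd) := by
      intro x hx
      have h1 : MDifferentiableAt 𝓘(ℂ, V2) 𝓘(ℂ, EE m) F (mk2 x A) :=
        (hF.holo _ (hmemL x hx).1).mdifferentiableAt (hDB.mem_nhds (hmemL x hx).1)
      exact (h1.comp x (mk2_diff A x).mdifferentiableAt).mdifferentiableWithinAt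
    have hmf : MDifferentiableOn 𝓘(ℂ, ℂ) 𝓘(ℂ, EE m) (fun x => f m hh t (mk2 x A))
        (ball (0 : ℂ) 1 \ Bd) := by
      intro x hx
      have h1 : MDifferentiableAt 𝓘(ℂ, V2) 𝓘(ℂ, EE m) (f m hh t) (mk2 x A) := by
        apply f_mdiff hh ht ht0
        intro h
        exact (hmemL x hx).2 ((gf_eq_iff hA).1 h)
      exact (h1.comp x (mk2_diff A x).mdifferentiableAt).mdifferentiableWithinAt
    obtain ⟨z₁, hz₁H, hz₁D⟩ := mem_closure_iff_nhds.1 (hLd (mem_ball_self one_pos)) _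
      (ball_mem_nhds (0 : ℂ) (by norm_num : (0 : ℝ) < 1 / 100))
    have hFe : (fun x => F (mk2 x A)) =ᶠ[𝓝 z₁] fun x => f m hh t (mk2 x A) := by
      filter_upwards [isOpen_ball.mem_nhds hz₁H, hLo.mem_nhds hz₁D] with x h1 h2
      apply hFf _ _ (notMem_empty _) (hmemL x h2).1.2
      refine ⟨(hmemL x h2).1.1.1, (hmemL x h2).1.1.2, Or.inl ?_⟩
      rw [norm_mk2]
      simpa using h1
    refine eqOn_of_preconnected hLo hLc.isPreconnected hmF hmf hz₁D hFe
      (⟨by simpa using hs, ?_⟩ : s ∈ ball (0 : ℂ) 1 \ Bd)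
    rintro (h | h)
    · exact hB h
    · exact hsA h
  -- a hole where `F` is holomorphic
  have he0 : eta 0 = 6 / 7 := by simp [eta]; norm_num
  have hcont : ContinuousAt (fun a => mk2 (eta a) a) 0 := by
    have h : Continuous (fun q : ℂ × ℂ => mk2 q.1 q.2) := by unfold mk2; fun_prop
    exact h.continuousAt.comp (eta_cont.prodMk continuousAt_id)
  have hp0 : mk2 (eta 0) 0 ∈ polydisc 1 := by
    rw [mk2_mem, he0]
    norm_num
  obtain ⟨W, hW, hpW, hWD, hBW⟩ := discrete hF.analytic hF.codim hp0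
  have h4 : ∀ᶠ a : ℂ in 𝓝[≠] 0, a ≠ 0 := eventually_mem_nhdsWithin
  have h5 : ∀ᶠ a : ℂ in 𝓝 0, mk2 (eta a) a ∈ W := hcont.preimage_mem_nhds (hW.mem_nhds hpW)
  obtain ⟨a, haW, ha0⟩ := ((h5.filter_mono nhdsWithin_le_nhds).and h4).exists
  have haB : mk2 (eta a) a ∉ B := by
    intro h
    have : mk2 (eta a) a = mk2 (eta 0) 0 := hBW ⟨h, haW⟩
    exact ha0 (congrArg Prod.snd this)
  have haD := mk2_mem.1 (hWD haW)
  have haDB : mk2 (eta a) a ∈ polydisc 1 \ B := ⟨hWD haW, haB⟩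
  have hFc : ContinuousAt F (mk2 (eta a) a) :=
    ((hF.holo _ haDB).mdifferentiableAt (hDB.mem_nhds haDB)).continuousAt
  -- values of `F` along the sequences
  have hlim : ∀ c : ℂ, Tendsto (fun n : ℕ => (fam hh m).quot.Q
      (par h t (h t, (lam : ℂ) ^ n * a + c, 0) 0)) atTop (𝓝 (F (mk2 (eta a) a))) := by
    intro c
    have h1 := tendsto_mk2 (tendsto_sn haD.2 c) (tendsto_An a c)
    have h2 := hFc.tendsto.comp h1
    refine h2.congr' ?_
    filter_upwards [h1.eventually (hDB.mem_nhds haDB)] with n hn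
    have hn1 := mk2_mem.1 hn.1
    rw [Function.comp_apply, hEq _ _ hn1.1 hn1.2 hn.2, f_sn hh ht ht0 hn1.2]
    rw [Ne, ← gf_eq_iff hn1.2, gf_sn hn1.2]
    intro h
    have hl : (lam : ℂ)⁻¹ ^ n ≠ 0 := pow_ne_zero _ (inv_ne_zero lamC_ne)
    exact hl (by linear_combination h)
  -- bounded representatives
  have hnear : ∀ n : ℕ, ∃ q : ℂ × ℂ, q ∈ closedBall (0 : ℂ × ℂ) 4 ∧ ∀ c : ℂ,
      (fam hh m).quot.Q (par h t (h t, (lam : ℂ) ^ n * a + c, 0) 0) =
        (fam hh m).quot.Q (par h t (h t, q.1 + c, q.2) 0) := by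
    intro n
    obtain ⟨α, β, hαβ, h1, h2⟩ := Lat.exists_near ((lam : ℂ) ^ n * a) 0
    refine ⟨((lam : ℂ) ^ n * a + α, β), ?_, fun c => ?_⟩
    · rw [mem_closedBall_zero_iff, Prod.norm_def]
      exact max_le h1 (by simpa using h2)
    · rw [Q_act_par hh (Gam.mk 0 α β hαβ) ht ht0]
      congr 2
      have hk : (Gam.mk 0 α β hαβ).k = 0 := rfl
      have ha : (Gam.mk 0 α β hαβ).a = α := rfl
      have hb : (Gam.mk 0 α β hαβ).b = β := rfl
      rw [hk, ha, hb]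
      refine Prod.ext ?_ (Prod.ext ?_ ?_)
      · simp
      · simp only [zpow_zero]; ring
      · simp
  choose q hq hq2 using hnear
  obtain ⟨y, -, φ, hφ, hy⟩ := (isCompact_closedBall (0 : ℂ × ℂ) 4).tendsto_subseq hq
  have hlim2 : ∀ c : ℂ, (fam hh m).quot.Q (par h t (h t, y.1 + c, y.2) 0) =
      F (mk2 (eta a) a) := by
    intro c
    have h1 := (hlim c).comp hφ.tendsto_atTop
    have h2 : Tendsto (fun n => par h t (h t, (q (φ n)).1 + c, (q (φ n)).2) (0 : Fin m → ℂ)) atTop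
        (𝓝 (par h t (h t, y.1 + c, y.2) 0)) := by
      have h' : Continuous (fun w : ℂ × ℂ => par h t (h t, w.1 + c, w.2) (0 : Fin m → ℂ)) := by
        have h0 : Continuous (fun w : ℂ × ℂ =>
          (((h t, w.1 + c, w.2), 0) : (ℂ × ℂ × ℂ) × (Fin m → ℂ))) := by fun_prop
        exact (continuous_par t).comp h0
      exact (h'.tendsto y).comp hy
    have h3 := ((fam hh m).quot.continuousAt_Q
      (par_mem ht ht0 0 : par h t (h t, y.1 + c, y.2) (0 : Fin m → ℂ) ∈ UU h)).tendsto.comp h2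
    refine tendsto_nhds_unique h3 (h1.congr fun n => ?_)
    exact hq2 (φ n) c
  apply Q_par_ne hh ht ht0 y
  rw [hlim2 1]
  have := hlim2 0
  rw [add_zero] at this
  exact this.symm

/-! ### The fibres over the points which are not zeros of `h` are all isomorphic -/

variable (m) (h) in
/-- the lift of the trivialization -/
noncomputable def ps (t₀ : ℂ) (p : EE m) : EE m :=
  ((t₀, h t₀ / h p.1.1 * p.1.2.1, p.1.2.2.1, p.1.2.2.2), p.2)

lemma wf_ps {t₀ : ℂ} {p : EE m} (hp : h p.1.1 ≠ 0) :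
    wf h (ps m h t₀ p) = h t₀ / h p.1.1 * wf h p := by
  simp only [wf, ps]
  field_simp

lemma ps_mem {t₀ : ℂ} (ht₀ : ‖t₀‖ < 1) (hz₀ : h t₀ ≠ 0) {p : EE m} (hp : p ∈ UU h)
    (hz : h p.1.1 ≠ 0) : ps m h t₀ p ∈ UU h := by
  refine ⟨?_, ht₀⟩
  rw [wf_ps hz]
  exact mul_ne_zero (div_ne_zero hz₀ hz) hp.1

lemma ps_act (t₀ : ℂ) (g : GG m) {p : EE m} (hz : h p.1.1 ≠ 0) :
    ps m h t₀ (act h g p) = act h g (ps m h t₀ p) := by
  simp only [ps, act]
  refine Prod.ext (Prod.ext rfl (Prod.ext ?_ rfl)) rfl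
  simp only
  field_simp

lemma ps_inj {t₀ : ℂ} (hz₀ : h t₀ ≠ 0) {p q : EE m} (hz : h p.1.1 ≠ 0) (hpq : p.1.1 = q.1.1)
    (he : ps m h t₀ p = ps m h t₀ q) : p = q := by
  have h1 := congrArg (fun r : EE m => r.1.2.1) he
  have h2 := congrArg (fun r : EE m => r.1.2.2) he
  have h3 := congrArg (fun r : EE m => r.2) he
  simp only [ps] at h1 h2 h3
  rw [← hpq] at h1
  have h4 := mul_left_cancel₀ (div_ne_zero hz₀ hz) h1
  exact Prod.ext (Prod.ext hpq (Prod.ext h4 h2)) h3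

lemma ps_surj {t t₀ : ℂ} (ht : ‖t‖ < 1) (hz₀ : h t₀ ≠ 0) (hz : h t ≠ 0) {q : EE m}
    (hq : q ∈ UU h) (hq0 : q.1.1 = t₀) : ∃ p ∈ UU h, p.1.1 = t ∧ ps m h t₀ p = q := by
  refine ⟨((t, h t / h t₀ * q.1.2.1, q.1.2.2.1, q.1.2.2.2), q.2), ⟨?_, ht⟩, rfl, ?_⟩
  · have h1 : wf h (((t, h t / h t₀ * q.1.2.1, q.1.2.2.1, q.1.2.2.2), q.2) : EE m) =
        h t / h t₀ * wf h q := by
      simp only [wf, hq0]
      field_simp
    rw [h1]
    exact mul_ne_zero (div_ne_zero hz hz₀) hq.1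
  · simp only [ps]
    refine Prod.ext (Prod.ext hq0.symm (Prod.ext ?_ rfl)) rfl
    simp only
    field_simp

include hh in
lemma ps_diff (t₀ : ℂ) {p : EE m} (hp : ‖p.1.1‖ < 1) (hz : h p.1.1 ≠ 0) :
    DifferentiableAt ℂ (ps m h t₀) p := by
  have h0 : DifferentiableAt ℂ h p.1.1 :=
    (hh _ (by simpa using hp)).differentiableAt (isOpen_ball.mem_nhds (by simpa using hp))
  have h1 : DifferentiableAt ℂ (fun p : EE m => h p.1.1) p :=
    DifferentiableAt.comp (f := fun p : EE m => p.1.1) p h0 (by fun_prop)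
  have hz' : (fun p : EE m => h p.1.1) p ≠ 0 := hz
  have h1i : DifferentiableAt ℂ (fun p : EE m => h p.1.1)⁻¹ p := h1.inv hz'
  have h1i' : DifferentiableAt ℂ (fun p : EE m => (h p.1.1)⁻¹) p := h1i
  have h1c : DifferentiableAt ℂ (fun p : EE m => h t₀ * (h p.1.1)⁻¹) p :=
    h1i'.const_mul (h t₀)
  have h1'' : DifferentiableAt ℂ (fun p : EE m => p.1.2.1) p := by fun_prop
  have h2' : DifferentiableAt ℂ (fun p : EE m => h t₀ * (h p.1.1)⁻¹ * p.1.2.1) p :=
    DifferentiableAt.fun_mul h1c h1''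
  have h2 : DifferentiableAt ℂ (fun p : EE m => h t₀ / h p.1.1 * p.1.2.1) p := by
    simpa only [div_eq_mul_inv] using h2'
  have h3 : DifferentiableAt ℂ (fun p : EE m => p.1.2.2.1) p := by fun_prop
  have h4 : DifferentiableAt ℂ (fun p : EE m => p.1.2.2.2) p := by fun_prop
  have h5 : DifferentiableAt ℂ (fun p : EE m => p.2) p := by fun_prop
  exact ((differentiableAt_const _).prodMk (h2.prodMk (h3.prodMk h4))).prodMk h5

/-- the trivialization of the family off the zeros of `h` -/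
theorem exists_trivialization {t₀ : ℂ} (ht₀ : ‖t₀‖ < 1) (hz₀ : h t₀ ≠ 0) :
    letI := (fam hh m).quot.cs
    ∃ Ψ : (fam hh m).Tot → (fam hh m).Tot,
      MDifferentiableOn 𝓘(ℂ, EE m) 𝓘(ℂ, EE m) Ψ {y | h ((fam hh m).proj y) ≠ 0} ∧
      ∀ t : ℂ, ‖t‖ < 1 → h t ≠ 0 →
        BijOn Ψ ((fam hh m).proj ⁻¹' {t}) ((fam hh m).proj ⁻¹' {t₀}) := by
  let _ := (fam hh m).quot.cs
  have hproj : ∀ x ∈ UU (m := m) h, (fam hh m).proj ((fam hh m).quot.Q x) = x.1.1 := fun x hx => (fam hh m).proj_Q hx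
  have hsecQ : ∀ y, (fam hh m).quot.Q ((fam hh m).quot.sec y) = y := fun y => by
    rw [(fam hh m).quot.Q_eq ((fam hh m).quot.sec y).2]; exact (fam hh m).quot.sec_spec y
  have hsecU : ∀ y, (((fam hh m).quot.sec y : (fam hh m).quot.U) : EE m) ∈ UU h := fun y => ((fam hh m).quot.sec y).2
  set Ψ : (fam hh m).Tot → (fam hh m).Tot := fun y => (fam hh m).quot.Q (ps m h t₀ ((fam hh m).quot.sec y)) with hΨ
  have hΨQ : ∀ x ∈ UU (m := m) h, h x.1.1 ≠ 0 → Ψ ((fam hh m).quot.Q x) = (fam hh m).quot.Q (ps m h t₀ x) := by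
    intro x hx hz
    obtain ⟨g, hg⟩ := (fam hh m).Q_eq_iff (hsecU ((fam hh m).quot.Q x)) hx (hsecQ _)
    show (fam hh m).quot.Q (ps m h t₀ ((fam hh m).quot.sec ((fam hh m).quot.Q x))) = _
    have hg' : (((fam hh m).quot.sec ((fam hh m).quot.Q x) : (fam hh m).quot.U) : EE m) = act h g x := hg
    rw [hg', ps_act t₀ g hz]
    exact (fam hh m).Q_act g (ps_mem ht₀ hz₀ hx hz)
  refine ⟨Ψ, ?_, ?_⟩
  · intro y hy
    apply MDifferentiableAt.mdifferentiableWithinAt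
    have hy1 : h (((fam hh m).quot.sec y : (fam hh m).quot.U) : EE m).1.1 ≠ 0 := by
      have h1 := hproj _ (hsecU y)
      rw [hsecQ] at h1
      rw [← h1]
      exact hy
    have hopen : ∀ᶠ v in 𝓝 (((fam hh m).quot.sec y : (fam hh m).quot.U) : EE m), v ∈ UU h ∧ h v.1.1 ≠ 0 := by
      have h1 : ∀ᶠ v in 𝓝 (((fam hh m).quot.sec y : (fam hh m).quot.U) : EE m), v ∈ UU h :=
        (isOpen_UU hh).mem_nhds (hsecU y)
      have h2 : ContinuousAt (fun v : EE m => h v.1.1) (((fam hh m).quot.sec y : (fam hh m).quot.U) : EE m) := by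
        have h3 : ContinuousAt h (((fam hh m).quot.sec y : (fam hh m).quot.U) : EE m).1.1 :=
          (hh.continuousOn).continuousAt (isOpen_ball.mem_nhds (by simpa using (hsecU y).2))
        exact ContinuousAt.comp (f := fun v : EE m => v.1.1) h3 (by fun_prop)
      exact h1.and (h2.eventually_ne hy1)
    refine (fam hh m).quot.mdifferentiableAt_of_lift (ψ := ps m h t₀) ?_ (ps_diff hh t₀ (hsecU y).2 hy1)
      (ps_mem ht₀ hz₀ (hsecU y) hy1)
    filter_upwards [hopen] with v hv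
    exact hΨQ v hv.1 hv.2
  · intro t ht hz
    refine ⟨?_, ?_, ?_⟩
    · intro y hy
      obtain ⟨x, hx, rfl⟩ := (fam hh m).exists_rep y
      have hxt : x.1.1 = t := (hproj x hx).symm.trans hy
      have hxz : h x.1.1 ≠ 0 := by rw [hxt]; exact hz
      rw [mem_preimage, hΨQ x hx hxz, hproj _ (ps_mem ht₀ hz₀ hx hxz)]
      rfl
    · intro y hy y' hy' he
      obtain ⟨x, hx, rfl⟩ := (fam hh m).exists_rep y
      obtain ⟨x', hx', rfl⟩ := (fam hh m).exists_rep y'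
      have hxt : x.1.1 = t := (hproj x hx).symm.trans hy
      have hxt' : x'.1.1 = t := (hproj x' hx').symm.trans hy'
      have hxz : h x.1.1 ≠ 0 := by rw [hxt]; exact hz
      have hxz' : h x'.1.1 ≠ 0 := by rw [hxt']; exact hz
      rw [hΨQ x hx hxz, hΨQ x' hx' hxz'] at he
      obtain ⟨g, hg⟩ := (fam hh m).Q_eq_iff (ps_mem ht₀ hz₀ hx hxz) (ps_mem ht₀ hz₀ hx' hxz') he
      have hg' : ps m h t₀ x = act h g (ps m h t₀ x') := hg
      rw [← ps_act t₀ g hxz'] at hg'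
      have h1 : x = act h g x' := ps_inj hz₀ hxz (by rw [hxt, ← hxt']; rfl) hg'
      rw [h1]
      exact (fam hh m).Q_act g hx'
    · intro y hy
      obtain ⟨q, hq, rfl⟩ := (fam hh m).exists_rep y
      have hq0 : q.1.1 = t₀ := (hproj q hq).symm.trans hy
      obtain ⟨p, hp, hpt, hpq⟩ := ps_surj ht hz₀ hz hq hq0
      refine ⟨(fam hh m).quot.Q p, ?_, ?_⟩
      · rw [mem_preimage, hproj p hp]; exact hpt
      · rw [hΨQ p hp (by rw [hpt]; exact hz), hpq]

end Pool.Agent.H63.ME
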