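import Pool.Agent.H63.ME.Fam
import Pool.Graph.R_seed8.Helper417.Mer.OpenBad

set_option autoImplicit false
set_option linter.unusedSectionVars false
open scoped Manifold ContDiff Topology
open Set Metric Filter

/-! The family `{(t, ζ, z, w, u) : ζ ≠ h(t) conj z} / Γ`, for a holomorphic function `h` on the
disc; `u ∈ ℂᵐ`. -/

namespace Pool.Agent.H63.ME

open Pool.Agent.Helper417.Mer
open Pool.Agent.Helper417.Mer.Opn (conj_lam norm_lam_zpow norm_mu_zpow mu_zpow lam_zpow_inj)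

/-- `ℂ⁴ × ℂᵐ` -/
abbrev EE (m : ℕ) : Type := (ℂ × ℂ × ℂ × ℂ) × (Fin m → ℂ)

/-- the group -/
abbrev GG (m : ℕ) : Type := Gam × Multiplicative (Fin m → ℤ × ℤ)

variable {m : ℕ} (h : ℂ → ℂ)

/-- the translation by a Gaussian integral vector -/
noncomputable def tv (ν : Fin m → ℤ × ℤ) : Fin m → ℂ :=
  fun i => ((ν i).1 : ℂ) + ((ν i).2 : ℂ) * Complex.I

lemma tv_zero : tv (0 : Fin m → ℤ × ℤ) = 0 := by
  funext i; simp [tv]

lemma tv_add (ν ν' : Fin m → ℤ × ℤ) : tv (ν + ν') = tv ν + tv ν' := by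
  funext i; simp [tv]; ring

lemma abs_re_le (ν : Fin m → ℤ × ℤ) (i : Fin m) : |((ν i).1 : ℝ)| ≤ ‖tv ν‖ := by
  have h1 := Complex.abs_re_le_norm (tv ν i)
  have h2 := norm_le_pi_norm (tv ν) i
  simp [tv] at h1
  exact h1.trans h2

lemma abs_im_le (ν : Fin m → ℤ × ℤ) (i : Fin m) : |((ν i).2 : ℝ)| ≤ ‖tv ν‖ := by
  have h1 := Complex.abs_im_le_norm (tv ν i)
  have h2 := norm_le_pi_norm (tv ν) i
  simp [tv] at h1
  exact h1.trans h2

lemma tv_inj {ν ν' : Fin m → ℤ × ℤ} (he : tv ν = tv ν') : ν = ν' := by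
  have h0 : tv (ν - ν') = 0 := by
    have : tv ν = tv (ν - ν') + tv ν' := by rw [← tv_add, sub_add_cancel]
    rw [he] at this
    exact (left_eq_add.1 (this.trans (add_comm _ _)))
  funext i
  have h1 := abs_re_le (ν - ν') i
  have h2 := abs_im_le (ν - ν') i
  rw [h0, norm_zero] at h1 h2
  have e1 : (((ν - ν') i).1 : ℝ) = 0 := abs_eq_zero.1 (le_antisymm h1 (abs_nonneg _))
  have e2 : (((ν - ν') i).2 : ℝ) = 0 := abs_eq_zero.1 (le_antisymm h2 (abs_nonneg _))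
  have e1' : ((ν - ν') i).1 = 0 := by exact_mod_cast e1
  have e2' : ((ν - ν') i).2 = 0 := by exact_mod_cast e2
  simp only [Pi.sub_apply, Prod.fst_sub, Prod.snd_sub] at e1' e2'
  exact Prod.ext (by omega) (by omega)

lemma tv_finite (R : ℝ) : {ν : Fin m → ℤ × ℤ | ‖tv ν‖ ≤ R}.Finite := by
  set N : ℤ := ⌈R⌉ with hN
  have hRN : R ≤ N := Int.le_ceil R
  have hfin : (Set.univ.pi fun _ : Fin m => ((Icc (-N) N) ×ˢ (Icc (-N) N) : Set (ℤ × ℤ))).Finite :=
    Set.Finite.pi fun _ => (finite_Icc _ _).prod (finite_Icc _ _)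
  apply hfin.subset
  intro ν hν i _
  have h1 := (abs_re_le ν i).trans hν
  have h2 := (abs_im_le ν i).trans hν
  rw [abs_le] at h1 h2
  refine ⟨⟨?_, ?_⟩, ⟨?_, ?_⟩⟩
  · have : (-(N : ℝ)) ≤ (ν i).1 := by linarith
    exact_mod_cast this
  · have : ((ν i).1 : ℝ) ≤ N := by linarith
    exact_mod_cast this
  · have : (-(N : ℝ)) ≤ (ν i).2 := by linarith
    exact_mod_cast this
  · have : ((ν i).2 : ℝ) ≤ N := by linarith
    exact_mod_cast this

lemma tv_near (u : Fin m → ℂ) : ∃ ν : Fin m → ℤ × ℤ, ‖u + tv ν‖ ≤ 1 := by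
  have key : ∀ i, ∃ c : ℤ × ℤ, ‖u i + ((c.1 : ℂ) + (c.2 : ℂ) * Complex.I)‖ ≤ 1 := by
    intro i
    obtain ⟨v, ⟨a, b, rfl⟩, hv⟩ := exists_near (-u i)
    refine ⟨(a, b), ?_⟩
    rw [show u i + ((a : ℂ) + (b : ℂ) * Complex.I) = (a + b * Complex.I) - -u i by ring]
    exact hv
  choose c hc using key
  exact ⟨c, (pi_norm_le_iff_of_nonneg one_pos.le).2 hc⟩

/-- the multiplicative coordinate -/
noncomputable def wf (p : EE m) : ℂ := p.1.2.1 - h p.1.1 * (starRingEnd ℂ) p.1.2.2.1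

/-- the universal cover -/
def UU : Set (EE m) := {p | wf h p ≠ 0 ∧ ‖p.1.1‖ < 1}

/-- the action -/
noncomputable def act (g : GG m) (p : EE m) : EE m :=
  ((p.1.1, (lam : ℂ) ^ g.1.k * p.1.2.1 + (starRingEnd ℂ) g.1.a * h p.1.1,
   (lam : ℂ) ^ g.1.k * p.1.2.2.1 + g.1.a, (mu : ℂ) ^ g.1.k * p.1.2.2.2 + g.1.b),
   p.2 + tv (Multiplicative.toAdd g.2))

lemma wf_act (g : GG m) (p : EE m) : wf h (act h g p) = (lam : ℂ) ^ g.1.k * wf h p := by
  simp only [wf, act, map_add, map_mul, conj_lam]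
  ring

variable {h} (hh : DifferentiableOn ℂ h (ball 0 1))

include hh in
lemma continuousOn_wf : ContinuousOn (wf h) {p : EE m | ‖p.1.1‖ < 1} := by
  have h0 : Continuous (starRingEnd ℂ) := Complex.continuous_conj
  have h1 : ContinuousOn (fun p : EE m => h p.1.1) {p : EE m | ‖p.1.1‖ < 1} :=
    hh.continuousOn.comp (by fun_prop) (fun p hp => by simpa using hp)
  have h2 : Continuous (fun p : EE m => (starRingEnd ℂ) p.1.2.2.1) := by fun_prop
  have h3 : Continuous (fun p : EE m => p.1.2.1) := by fun_prop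
  exact h3.continuousOn.sub (h1.mul h2.continuousOn)

include hh in
lemma isOpen_UU : IsOpen (UU (m := m) h) := by
  have h2 : IsOpen {p : EE m | ‖p.1.1‖ < 1} := isOpen_lt (by fun_prop) continuous_const
  have h1 := (continuousOn_wf (m := m) hh).isOpen_inter_preimage h2 isOpen_compl_singleton (t := {0}ᶜ)
  convert h1 using 1
  ext p
  simp only [UU, mem_inter_iff, mem_preimage, mem_compl_iff, mem_singleton_iff, mem_ofPred_eq]
  exact and_comm

lemma act_mem (g : GG m) (p : EE m) (hp : p ∈ UU h) : act h g p ∈ UU h := by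
  refine ⟨?_, hp.2⟩
  rw [wf_act]
  exact mul_ne_zero (zpow_ne_zero _ lamC_ne) hp.1

lemma act_one (p : EE m) : act h 1 p = p := by
  simp [act, Gam.one_k, Gam.one_a, Gam.one_b, tv_zero]

lemma act_mul (g g' : GG m) (p : EE m) : act h (g * g') p = act h g (act h g' p) := by
  have h1 : (g * g').1 = g.1 * g'.1 := rfl
  have h2 : Multiplicative.toAdd (g * g').2 =
    Multiplicative.toAdd g.2 + Multiplicative.toAdd g'.2 := rfl
  have e2 : (mu : ℂ) ^ (g.1.k + g'.1.k) = (mu : ℂ) ^ g.1.k * (mu : ℂ) ^ g'.1.k :=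
    zpow_add₀ muC_ne _ _
  have e3 : (lam : ℂ) ^ (g.1.k + g'.1.k) = (lam : ℂ) ^ g.1.k * (lam : ℂ) ^ g'.1.k :=
    zpow_add₀ lamC_ne _ _
  simp only [act, h1, h2, tv_add, Gam.mul_k, Gam.mul_a, Gam.mul_b, e2, e3, map_add, map_mul,
    conj_lam]
  refine Prod.ext (Prod.ext rfl (Prod.ext ?_ (Prod.ext ?_ ?_))) ?_
  · simp only; ring
  · simp only; ring
  · simp only; ring
  · simp only
    rw [add_assoc, add_comm (tv (Multiplicative.toAdd g.2))]

include hh in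
lemma contDiffOn_h : ContDiffOn ℂ ω h (ball 0 1) :=
  (hh.analyticOnNhd isOpen_ball).contDiffOn isOpen_ball.uniqueDiffOn

include hh in
lemma act_diff (g : GG m) : ContDiffOn ℂ ω (act h g) (UU h) := by
  have h1 : ContDiffOn ℂ ω (fun p : EE m => h p.1.1) (UU h) :=
    (contDiffOn_h hh).comp (f := fun p : EE m => p.1.1)
      ((contDiff_fst.comp contDiff_fst).contDiffOn) (fun p hp => by simpa using hp.2)
  have a1 : ContDiff ℂ ω (fun p : EE m => p.1.1) := contDiff_fst.comp contDiff_fst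
  have a2 : ContDiff ℂ ω (fun p : EE m => p.1.2.1) :=
    contDiff_fst.comp (contDiff_snd.comp contDiff_fst)
  have a3 : ContDiff ℂ ω (fun p : EE m => p.1.2.2.1) :=
    contDiff_fst.comp (contDiff_snd.comp (contDiff_snd.comp contDiff_fst))
  have a4 : ContDiff ℂ ω (fun p : EE m => p.1.2.2.2) :=
    contDiff_snd.comp (contDiff_snd.comp (contDiff_snd.comp contDiff_fst))
  have a5 : ContDiff ℂ ω (fun p : EE m => p.2) := contDiff_snd
  have b2 : ContDiffOn ℂ ω (fun p : EE m => (lam : ℂ) ^ g.1.k * p.1.2.1 +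
      (starRingEnd ℂ) g.1.a * h p.1.1) (UU h) :=
    (contDiff_const.mul a2).contDiffOn.add (contDiffOn_const.mul h1)
  have b3 : ContDiff ℂ ω (fun p : EE m => (lam : ℂ) ^ g.1.k * p.1.2.2.1 + g.1.a) :=
    (contDiff_const.mul a3).add contDiff_const
  have b4 : ContDiff ℂ ω (fun p : EE m => (mu : ℂ) ^ g.1.k * p.1.2.2.2 + g.1.b) :=
    (contDiff_const.mul a4).add contDiff_const
  have b5 : ContDiff ℂ ω (fun p : EE m => p.2 + tv (Multiplicative.toAdd g.2)) :=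
    a5.add contDiff_const
  exact (a1.contDiffOn.prodMk (b2.prodMk (b3.contDiffOn.prodMk b4.contDiffOn))).prodMk
    b5.contDiffOn

lemma act_free (g g' : GG m) (p : EE m) (hp : p ∈ UU h) (he : act h g p = act h g' p) :
    g = g' := by
  have hw : (lam : ℂ) ^ g.1.k * wf h p = (lam : ℂ) ^ g'.1.k * wf h p := by
    rw [← wf_act, ← wf_act, he]
  have hk : g.1.k = g'.1.k := lam_zpow_inj (mul_right_cancel₀ hp.1 hw)
  have ha : g.1.a = g'.1.a := by
    have := congrArg (fun q : EE m => q.1.2.2.1) he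
    simp only [act, hk] at this
    exact add_left_cancel this
  have hb : g.1.b = g'.1.b := by
    have := congrArg (fun q : EE m => q.1.2.2.2) he
    simp only [act, hk] at this
    exact add_left_cancel this
  have hν : Multiplicative.toAdd g.2 = Multiplicative.toAdd g'.2 := by
    have := congrArg (fun q : EE m => q.2) he
    simp only [act] at this
    exact tv_inj (add_left_cancel this)
  exact Prod.ext (Gam.ext hk ha hb) (Multiplicative.toAdd.injective hν)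

include hh in
lemma act_fin (K : Set (EE m)) (hK : IsCompact K) (hKU : K ⊆ UU h) :
    {g : GG m | ∃ x ∈ K, act h g x ∈ K}.Finite := by
  obtain ⟨C₁, hC₁⟩ := hK.isBounded.exists_norm_le
  have hwc : ContinuousOn (wf h) K := (continuousOn_wf hh).mono fun p hp => (hKU hp).2
  have hcont : ContinuousOn (fun p : EE m => ‖wf h p‖⁻¹) K := by
    apply ContinuousOn.inv₀ hwc.norm
    intro p hp
    exact norm_ne_zero_iff.2 (hKU hp).1
  obtain ⟨C₂, hC₂⟩ := (hK.bddAbove_image hcont)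
  obtain ⟨C₃, hC₃⟩ := (hK.bddAbove_image hwc.norm)
  set C : ℝ := max 1 (max C₁ (max C₂ C₃)) with hC
  have hC1 : 1 ≤ C := le_max_left _ _
  have hCa : ∀ p ∈ K, ‖p‖ ≤ C := fun p hp =>
    (hC₁ p hp).trans ((le_max_left _ _).trans (le_max_right _ _))
  have hCc : ∀ p ∈ K, ‖wf h p‖ ≤ C := fun p hp =>
    (hC₃ ⟨p, hp, rfl⟩).trans ((le_max_right _ _).trans ((le_max_right _ _).trans (le_max_right _ _)))
  have hCb : ∀ p ∈ K, 1 ≤ C * ‖wf h p‖ := by
    intro p hp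
    have h1 : ‖wf h p‖⁻¹ ≤ C :=
      (hC₂ ⟨p, hp, rfl⟩).trans ((le_max_left _ _).trans ((le_max_right _ _).trans (le_max_right _ _)))
    have h2 : 0 < ‖wf h p‖ := norm_pos_iff.2 (hKU hp).1
    rw [inv_le_iff_one_le_mul₀ h2] at h1
    exact h1
  obtain ⟨N, hN⟩ := abs_le_of_zpow (C ^ 2)
  have hpos : 0 < C := lt_of_lt_of_le one_pos hC1
  have hlg : ∀ k : ℤ, lam ^ k = gr ^ (2 * k) := by
    intro k
    rw [lam, ← zpow_natCast gr 2, ← zpow_mul]
    norm_num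
  have hz2 : ∀ p : EE m, ‖p.1.2.2.1‖ ≤ ‖p‖ := fun p =>
    (norm_fst_le _).trans ((norm_snd_le _).trans ((norm_snd_le _).trans (norm_fst_le _)))
  have hz3 : ∀ p : EE m, ‖p.1.2.2.2‖ ≤ ‖p‖ := fun p =>
    (norm_snd_le _).trans ((norm_snd_le _).trans ((norm_snd_le _).trans (norm_fst_le _)))
  have hz4 : ∀ p : EE m, ‖p.2‖ ≤ ‖p‖ := fun p => norm_snd_le _
  have key : ∀ (g : GG m) (x : EE m), x ∈ K → act h g x ∈ K →
      |g.1.k| ≤ N ∧ ‖g.1.a‖ ≤ C + C ^ 2 * C ∧ ‖g.1.b‖ ≤ C + C ^ 2 * C ∧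
      ‖tv (Multiplicative.toAdd g.2)‖ ≤ C + C := by
    intro g x hx hgx
    have hwn : ‖wf h (act h g x)‖ = lam ^ g.1.k * ‖wf h x‖ := by
      rw [wf_act, norm_mul, norm_lam_zpow]
    have h4 : 0 < lam ^ g.1.k := zpow_pos lam_pos _
    have hk1 : lam ^ g.1.k ≤ C ^ 2 := by
      have h2 := hCc _ hgx
      rw [hwn] at h2
      have h3 := hCb x hx
      calc lam ^ g.1.k = lam ^ g.1.k * 1 := (mul_one _).symm
        _ ≤ lam ^ g.1.k * (C * ‖wf h x‖) := by gcongr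
        _ = C * (lam ^ g.1.k * ‖wf h x‖) := by ring
        _ ≤ C * C := by gcongr
        _ = C ^ 2 := by ring
    have hk2 : lam ^ (-g.1.k) ≤ C ^ 2 := by
      have h2 := hCc _ hx
      have h3 := hCb _ hgx
      rw [hwn] at h3
      rw [zpow_neg, inv_le_iff_one_le_mul₀ h4]
      calc (1 : ℝ) ≤ C * (lam ^ g.1.k * ‖wf h x‖) := h3
        _ ≤ C * (lam ^ g.1.k * C) := by gcongr
        _ = C ^ 2 * lam ^ g.1.k := by ring
    have hkN : |g.1.k| ≤ N := by
      have h5 := hN (2 * g.1.k) (by rw [← hlg]; exact hk1)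
        (by rw [show -(2 * g.1.k) = 2 * (-g.1.k) by ring, ← hlg]; exact hk2)
      rw [abs_mul] at h5
      have : |(2 : ℤ)| = 2 := rfl
      rw [this] at h5
      have := abs_nonneg g.1.k
      omega
    refine ⟨hkN, ?_, ?_, ?_⟩
    · have h1 : g.1.a = (act h g x).1.2.2.1 - (lam : ℂ) ^ g.1.k * x.1.2.2.1 := by simp [act]
      rw [h1]
      refine (norm_sub_le _ _).trans ?_
      rw [norm_mul, norm_lam_zpow]
      have a1 := (hz2 _).trans (hCa _ hgx)
      have a2 := (hz2 _).trans (hCa _ hx)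
      gcongr
    · have h1 : g.1.b = (act h g x).1.2.2.2 - (mu : ℂ) ^ g.1.k * x.1.2.2.2 := by simp [act]
      rw [h1]
      refine (norm_sub_le _ _).trans ?_
      rw [norm_mul, norm_mu_zpow, mu_zpow]
      have a1 := (hz3 _).trans (hCa _ hgx)
      have a2 := (hz3 _).trans (hCa _ hx)
      gcongr
    · have h1 : tv (Multiplicative.toAdd g.2) = (act h g x).2 - x.2 := by simp [act]
      rw [h1]
      refine (norm_sub_le _ _).trans ?_
      have a1 := (hz4 _).trans (hCa _ hgx)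
      have a2 := (hz4 _).trans (hCa _ hx)
      gcongr
  set S : Set (GG m) := {g : GG m | ∃ x ∈ K, act h g x ∈ K} with hS
  have hS1 : (Prod.fst '' S).Finite := by
    apply Gam.finite_of_bdd (N := N) (R := C + C ^ 2 * C)
    · rintro _ ⟨g, ⟨x, hx, hgx⟩, rfl⟩; exact (key g x hx hgx).1
    · rintro _ ⟨g, ⟨x, hx, hgx⟩, rfl⟩; exact (key g x hx hgx).2.1
    · rintro _ ⟨g, ⟨x, hx, hgx⟩, rfl⟩; exact (key g x hx hgx).2.2.1
  have hS2 : ((fun g : GG m => Multiplicative.toAdd g.2) '' S).Finite := by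
    apply (tv_finite (C + C)).subset
    rintro _ ⟨g, ⟨x, hx, hgx⟩, rfl⟩
    exact (key g x hx hgx).2.2.2
  have hS3 := (hS1.prod hS2)
  apply Finite.of_finite_image (f := fun g : GG m => (g.1, Multiplicative.toAdd g.2))
  · apply hS3.subset
    rintro _ ⟨g, hg, rfl⟩
    exact ⟨⟨g, hg, rfl⟩, ⟨g, hg, rfl⟩⟩
  · intro g _ g' _ hgg
    simp only [Prod.mk.injEq] at hgg
    exact Prod.ext hgg.1 (Multiplicative.toAdd.injective hgg.2)

variable (h) in
/-- parametrization of the fibres -/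
noncomputable def par (t : ℂ) (q : ℂ × ℂ × ℂ) (u : Fin m → ℂ) : EE m :=
  ((t, q.1 + h t * (starRingEnd ℂ) q.2.1, q.2.1, q.2.2), u)

lemma wf_par (t : ℂ) (q : ℂ × ℂ × ℂ) (u : Fin m → ℂ) : wf h (par h t q u) = q.1 := by
  simp [wf, par]

lemma continuous_par (t : ℂ) : Continuous (fun x : (ℂ × ℂ × ℂ) × (Fin m → ℂ) =>
    par h t x.1 x.2) := by
  have : Continuous (starRingEnd ℂ) := Complex.continuous_conj
  unfold par
  fun_prop

lemma act_par (g : GG m) (t : ℂ) (q : ℂ × ℂ × ℂ) (u : Fin m → ℂ) : act h g (par h t q u) =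
    par h t ((lam : ℂ) ^ g.1.k * q.1, (lam : ℂ) ^ g.1.k * q.2.1 + g.1.a,
      (mu : ℂ) ^ g.1.k * q.2.2 + g.1.b) (u + tv (Multiplicative.toAdd g.2)) := by
  simp only [act, par, map_add, map_mul, conj_lam]
  refine Prod.ext (Prod.ext rfl (Prod.ext ?_ rfl)) rfl
  simp only
  ring

lemma exists_par {t : ℂ} {p : EE m} (ht : p.1.1 = t) :
    p = par h t (wf h p, p.1.2.2.1, p.1.2.2.2) p.2 := by
  subst ht
  simp only [par, wf]
  refine Prod.ext (Prod.ext rfl (Prod.ext ?_ rfl)) rfl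
  simp only
  ring

lemma par_mem {t : ℂ} (ht : ‖t‖ < 1) {q : ℂ × ℂ × ℂ} (hq : q.1 ≠ 0) (u : Fin m → ℂ) :
    par h t q u ∈ UU h := ⟨by rw [wf_par]; exact hq, ht⟩

lemma conn (t : ℂ) (ht : t ∈ ball (0 : ℂ) 1) : IsConnected {p : EE m | p ∈ UU h ∧ p.1.1 = t} := by
  have h1 : IsConnected ({0}ᶜ : Set ℂ) := by
    apply isConnected_compl_singleton_of_one_lt_rank
    rw [Complex.rank_real_complex]
    norm_num
  have h2 : IsConnected ((({0}ᶜ : Set ℂ) ×ˢ (univ : Set (ℂ × ℂ))) ×ˢ (univ : Set (Fin m → ℂ))) :=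
    (h1.prod isConnected_univ).prod isConnected_univ
  have h4 := h2.image _ (continuous_par (h := h) t).continuousOn
  convert h4 using 1
  ext p
  constructor
  · rintro ⟨hp, hpt⟩
    exact ⟨((wf h p, p.1.2.2.1, p.1.2.2.2), p.2), ⟨⟨hp.1, mem_univ _⟩, mem_univ _⟩,
      (exists_par hpt).symm⟩
  · rintro ⟨q, ⟨⟨hq, -⟩, -⟩, rfl⟩
    exact ⟨par_mem (by simpa using ht) hq _, rfl⟩

include hh in
lemma proper (K : Set ℂ) (hK : K ⊆ ball (0 : ℂ) 1) (hKc : IsCompact K) :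
    ∃ F : Set (EE m), IsCompact F ∧ F ⊆ UU h ∧ ∀ x ∈ UU h, x.1.1 ∈ K → ∃ g, act h g x ∈ F := by
  have hA : IsCompact {y : ℂ | 1 ≤ ‖y‖ ∧ ‖y‖ ≤ 3} := by
    have : {y : ℂ | 1 ≤ ‖y‖ ∧ ‖y‖ ≤ 3} = closedBall 0 3 ∩ {y : ℂ | 1 ≤ ‖y‖} := by
      ext y
      simp only [mem_ofPred_eq, mem_inter_iff, mem_closedBall_zero_iff]
      exact and_comm
    rw [this]
    exact (isCompact_closedBall _ _).inter_right (isClosed_le continuous_const continuous_norm)
  set B : Set (ℂ × (ℂ × ℂ × ℂ) × (Fin m → ℂ)) :=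
    K ×ˢ (({y : ℂ | 1 ≤ ‖y‖ ∧ ‖y‖ ≤ 3} ×ˢ (closedBall 0 4 ×ˢ closedBall 0 4)) ×ˢ
      closedBall (0 : Fin m → ℂ) 1) with hB
  have hBc : IsCompact B := hKc.prod ((hA.prod ((isCompact_closedBall _ _).prod
    (isCompact_closedBall _ _))).prod (isCompact_closedBall _ _))
  have hcont : ContinuousOn (fun x : ℂ × (ℂ × ℂ × ℂ) × (Fin m → ℂ) => par h x.1 x.2.1 x.2.2) B := by
    have h0 : Continuous (starRingEnd ℂ) := Complex.continuous_conj
    have h1 : ContinuousOn (fun x : ℂ × (ℂ × ℂ × ℂ) × (Fin m → ℂ) => h x.1) B :=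
      hh.continuousOn.comp continuous_fst.continuousOn (fun x hx => hK hx.1)
    have h2 : Continuous (fun x : ℂ × (ℂ × ℂ × ℂ) × (Fin m → ℂ) =>
      (starRingEnd ℂ) x.2.1.2.1) := by fun_prop
    have h3 : Continuous (fun x : ℂ × (ℂ × ℂ × ℂ) × (Fin m → ℂ) => x.2.1.1) := by fun_prop
    have h4 : Continuous (fun x : ℂ × (ℂ × ℂ × ℂ) × (Fin m → ℂ) => x.1) := by fun_prop
    have h5 : Continuous (fun x : ℂ × (ℂ × ℂ × ℂ) × (Fin m → ℂ) => (x.2.1.2.1, x.2.1.2.2)) := by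
      fun_prop
    have h6 : Continuous (fun x : ℂ × (ℂ × ℂ × ℂ) × (Fin m → ℂ) => x.2.2) := by fun_prop
    exact (h4.continuousOn.prodMk ((h3.continuousOn.add (h1.mul h2.continuousOn)).prodMk
      h5.continuousOn)).prodMk h6.continuousOn
  refine ⟨_, hBc.image_of_continuousOn hcont, ?_, ?_⟩
  · rintro _ ⟨x, ⟨hx1, ⟨hx2, -⟩, -⟩, rfl⟩
    refine par_mem (by simpa using hK hx1) ?_ _
    intro h0
    have := hx2.1
    rw [h0, norm_zero] at this
    linarith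
  · intro x hx hxK
    have hy : 0 < ‖wf h x‖ := norm_pos_iff.2 hx.1
    obtain ⟨n, hn1, hn2⟩ := exists_mem_Ico_zpow hy lam_gt
    have hgn : 0 < lam ^ (-n) := zpow_pos lam_pos _
    have hmul : lam ^ (-n) * lam ^ n = 1 := by
      rw [← zpow_add₀ lam_pos.ne']; simp
    have hy1 : 1 ≤ ‖(lam : ℂ) ^ (-n) * wf h x‖ := by
      rw [norm_mul, norm_lam_zpow, ← hmul]
      gcongr
    have hy2 : ‖(lam : ℂ) ^ (-n) * wf h x‖ ≤ 3 := by
      rw [norm_mul, norm_lam_zpow]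
      calc lam ^ (-n) * ‖wf h x‖ ≤ lam ^ (-n) * lam ^ (n + 1) := by gcongr
        _ = lam ^ (-n) * lam ^ n * lam := by rw [zpow_add_one₀ lam_pos.ne']; ring
        _ ≤ 3 := by rw [hmul, one_mul]; exact lam_lt.le
    obtain ⟨a, b, hab, ha, hb⟩ := Lat.exists_near ((lam : ℂ) ^ (-n) * x.1.2.2.1)
      ((mu : ℂ) ^ (-n) * x.1.2.2.2)
    obtain ⟨ν, hν⟩ := tv_near x.2
    refine ⟨(Gam.mk (-n) a b hab, Multiplicative.ofAdd ν), ?_⟩
    refine ⟨(x.1.1, ((lam : ℂ) ^ (-n) * wf h x, (lam : ℂ) ^ (-n) * x.1.2.2.1 + a,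
      (mu : ℂ) ^ (-n) * x.1.2.2.2 + b), x.2 + tv ν), ?_, ?_⟩
    · exact ⟨hxK, ⟨⟨hy1, hy2⟩, by simpa using ha, by simpa using hb⟩, by simpa using hν⟩
    · conv_rhs => rw [exists_par (h := h) (p := x) rfl]
      rw [act_par]
      rfl

/-- the family -/
noncomputable def fam (m : ℕ) : HFam (EE m) (GG m) where
  U := UU h
  isOpen := isOpen_UU hh
  nonempty := ⟨((0, 1, 0, 0), 0), by simp [UU, wf]⟩
  act := act h
  mem := act_mem
  one := fun x _ => act_one x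
  mul := fun g g' x _ => act_mul g g' x
  diff := act_diff hh
  fin := act_fin hh
  free := act_free
  π := fun p => p.1.1
  π_inv := fun _ _ _ => rfl
  π_diff := differentiable_fst.comp differentiable_fst
  π_sub := fun p _ c => by
    refine ⟨((c, 0, 0, 0), 0), ?_⟩
    have h1 : HasFDerivAt (fun p : EE m => p.1.1) ((ContinuousLinearMap.fst ℂ ℂ (ℂ × ℂ × ℂ)).comp
      (ContinuousLinearMap.fst ℂ (ℂ × ℂ × ℂ × ℂ) (Fin m → ℂ))) p :=
      ((ContinuousLinearMap.fst ℂ ℂ (ℂ × ℂ × ℂ)).comp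
      (ContinuousLinearMap.fst ℂ (ℂ × ℂ × ℂ × ℂ) (Fin m → ℂ))).hasFDerivAt
    rw [h1.fderiv]
    rfl
  π_range := by
    ext t
    constructor
    · rintro ⟨p, hp, rfl⟩
      simpa using hp.2
    · intro ht
      refine ⟨((t, 1, 0, 0), 0), ⟨?_, by simpa using ht⟩, rfl⟩
      simp [wf]
  π_proper := proper hh
  π_conn := conn

/-- the fibres over the zeros of `h` are good -/
lemma extClosed {t₀ : ℂ} (ht₀ : ‖t₀‖ < 1) (hz₀ : h t₀ = 0) :
    ExtClosed (fam hh m).quot ((fam hh m).proj ⁻¹' {t₀}) := by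
  intro V _ _ D T hD hDc hT hTne hTD hext F hF hFT z hz
  obtain ⟨z₁, hz₁⟩ := hTne
  have hproj : ∀ w, F w ∈ UU h → (fam hh m).proj ((fam hh m).quot.Q (F w)) = (F w).1.1 :=
    fun w hw => (fam hh m).proj_Q hw
  have h1 : ∀ w ∈ T, F w ∈ UU h ∧ (F w).1.1 = t₀ := by
    intro w hw
    refine ⟨(hFT w hw).1, ?_⟩
    rw [← hproj w (hFT w hw).1]
    exact (hFT w hw).2
  have hdd : DifferentiableOn ℂ (fun w => (F w).1.1 - t₀) D := fun w hw =>
    ((hF w hw).fst.fst).sub_const _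
  have hζ : DifferentiableOn ℂ (fun w => (F w).1.2.1) D := fun w hw => (hF w hw).fst.snd.fst
  have h0 : ∀ᶠ w in 𝓝 z₁, (F w).1.1 - t₀ = 0 := by
    filter_upwards [hT.mem_nhds hz₁] with w hw
    rw [(h1 w hw).2, sub_self]
  have h2' : ∀ z ∈ D, (F z).1.1 - t₀ = 0 := eqOn_zero_of_convex hD hDc hdd (hTD hz₁) h0
  have h2 : ∀ z ∈ D, (F z).1.1 = t₀ := fun z hz => sub_eq_zero.1 (h2' z hz)
  have h1' : ∀ w ∈ T, (F w).1.2.1 ≠ 0 := by
    intro w hw h'
    apply (h1 w hw).1.1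
    rw [wf, h', (h1 w hw).2, hz₀]
    simp
  obtain ⟨G, hG, hGe⟩ := hext (fun w => ((F w).1.2.1)⁻¹)
    (fun w hw => ((hζ.mono hTD) w hw).inv (h1' w hw))
  have h3 : ∀ z ∈ D, (F z).1.2.1 * G z - 1 = 0 := by
    apply eqOn_zero_of_convex hD hDc ((hζ.mul hG).sub_const 1) (hTD hz₁)
    filter_upwards [hT.mem_nhds hz₁] with w hw
    simp only [Pi.mul_apply]
    rw [hGe hw, mul_inv_cancel₀ (h1' w hw), sub_self]
  have h4 : F z ∈ UU h := by
    refine ⟨?_, ?_⟩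
    · intro h'
      rw [wf, h2 z hz, hz₀, zero_mul, sub_zero] at h'
      have := h3 z hz
      rw [h', zero_mul, zero_sub, neg_eq_zero] at this
      exact one_ne_zero this
    · rw [h2 z hz]; exact ht₀
  refine ⟨h4, ?_⟩
  show (fam hh m).proj ((fam hh m).quot.Q (F z)) = t₀
  rw [hproj z h4]
  exact h2 z hz

end Pool.Agent.H63.ME
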