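import Pool.Agent.H63.ME.Good

set_option autoImplicit false
set_option linter.unusedSectionVars false
open scoped Manifold ContDiff Topology
open Set Metric Filter

/-! Families of compact complex manifolds given as quotients of an open set by a group
(after `Pool/Graph/R_seed8/Helper417/Mer/Fam.lean`). -/

namespace Pool.Agent.H63.ME

open Pool.Agent.Helper417.Mer (IsComplexDeformation)

/-- A family of compact complex manifolds `{π = t} / G`. -/
structure HFam (E : Type) [NormedAddCommGroup E] [NormedSpace ℂ E] (G : Type) [Group G] where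
  U : Set E
  isOpen : IsOpen U
  nonempty : U.Nonempty
  act : G → E → E
  mem : ∀ g x, x ∈ U → act g x ∈ U
  one : ∀ x ∈ U, act 1 x = x
  mul : ∀ g h, ∀ x ∈ U, act (g * h) x = act g (act h x)
  diff : ∀ g, ContDiffOn ℂ ω (act g) U
  fin : ∀ K : Set E, IsCompact K → K ⊆ U → {g | ∃ x ∈ K, act g x ∈ K}.Finite
  free : ∀ g h, ∀ x ∈ U, act g x = act h x → g = h
  π : E → ℂ
  π_inv : ∀ g, ∀ x ∈ U, π (act g x) = π x
  π_diff : Differentiable ℂ π
  π_sub : ∀ x ∈ U, Function.Surjective (fderiv ℂ π x)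
  π_range : π '' U = ball 0 1
  π_proper : ∀ K ⊆ ball (0 : ℂ) 1, IsCompact K → ∃ F : Set E, IsCompact F ∧ F ⊆ U ∧
    ∀ x ∈ U, π x ∈ K → ∃ g, act g x ∈ F
  π_conn : ∀ t ∈ ball (0 : ℂ) 1, IsConnected {x | x ∈ U ∧ π x = t}

namespace HFam

variable {E : Type} [NormedAddCommGroup E] [NormedSpace ℂ E] {G : Type} [Group G] (F : HFam E G)

instance mulAction : MulAction G F.U where
  smul g x := ⟨F.act g x, F.mem g x x.2⟩
  one_smul x := Subtype.ext (F.one x x.2)
  mul_smul g h x := Subtype.ext (F.mul g h x x.2)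

lemma smul_coe (g : G) (x : F.U) : ((g • x : F.U) : E) = F.act g x := rfl

instance contSMul : ContinuousConstSMul G F.U where
  continuous_const_smul g := by
    apply Continuous.subtype_mk
    exact (F.diff g).continuousOn.domRestrict

instance cancelSMul : IsCancelSMul G F.U where
  right_cancel' g h x hx := F.free g h x x.2 (congrArg Subtype.val hx)

instance pdSMul : ProperlyDiscontinuousSMul G F.U where
  finite_disjoint_inter_image := by
    intro K L hK hL
    set K' : Set E := Subtype.val '' K ∪ Subtype.val '' L with hK'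
    have hK'c : IsCompact K' :=
      (hK.image continuous_subtype_val).union (hL.image continuous_subtype_val)
    have hK'U : K' ⊆ F.U := by
      rintro _ (⟨x, -, rfl⟩ | ⟨x, -, rfl⟩) <;> exact x.2
    have key : {g : G | ((g • ·) '' K ∩ L).Nonempty} ⊆ {g | ∃ x ∈ K', F.act g x ∈ K'} := by
      rintro g ⟨_, ⟨x, hx, rfl⟩, hy⟩
      exact ⟨x, Or.inl ⟨x, hx, rfl⟩, Or.inr ⟨g • x, hy, rfl⟩⟩
    have := (F.fin K' hK'c hK'U).subset key
    convert this using 1

variable [FiniteDimensional ℂ E]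

/-- the total space -/
abbrev Tot : Type := Quotient (MulAction.orbitRel G F.U)

lemma locallyCompact : LocallyCompactSpace F.U := by
  have : ProperSpace E := FiniteDimensional.proper ℂ E
  exact F.isOpen.locallyCompactSpace

lemma isQuot : IsQuotientCoveringMap (Quotient.mk (MulAction.orbitRel G F.U)) G := by
  have := F.locallyCompact
  exact isQuotientCoveringMap_quotientMk_of_properlyDiscontinuousSMul

/-- the quotient data -/
noncomputable def quot : DQuot E F.Tot where
  U := F.U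
  isOpen := F.isOpen
  nonempty := F.nonempty.to_subtype
  G := G
  grp := inferInstance
  act := inferInstance
  q := Quotient.mk _
  hq := F.isQuot
  φ := F.act
  φ_spec := fun _ _ => rfl
  φ_diff := F.diff

/-- the projection to the disc -/
noncomputable def proj : F.Tot → ℂ := Quotient.lift (fun x : F.U => F.π x) (by
  rintro x y ⟨g, rfl⟩
  exact F.π_inv g y y.2)

lemma proj_Q {x : E} (hx : x ∈ F.U) : F.proj (F.quot.Q x) = F.π x := by
  rw [F.quot.Q_eq hx]
  rfl

lemma exists_rep (y : F.Tot) : ∃ x ∈ F.U, F.quot.Q x = y := by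
  obtain ⟨x, rfl⟩ := F.quot.hq.surjective y
  exact ⟨x, x.2, F.quot.Q_eq x.2⟩

lemma Q_act (g : G) {x : E} (hx : x ∈ F.U) : F.quot.Q (F.act g x) = F.quot.Q x := by
  rw [F.quot.Q_eq hx, F.quot.Q_eq (F.mem g x hx)]
  exact F.quot.hq.map_smul (e := (⟨x, hx⟩ : F.U)) g

lemma Q_eq_iff {x y : E} (hx : x ∈ F.U) (hy : y ∈ F.U) (h : F.quot.Q x = F.quot.Q y) :
    ∃ g, x = F.act g y := by
  rw [F.quot.Q_eq hx, F.quot.Q_eq hy] at h
  obtain ⟨g, hg⟩ := F.quot.hq.apply_eq_iff_mem_orbit.1 h
  exact ⟨g, (congrArg Subtype.val hg).symm⟩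

lemma t2 : T2Space F.Tot := by
  have := F.locallyCompact
  exact t2Space_of_properlyDiscontinuousSMul_of_t2Space

lemma secondCountable : SecondCountableTopology F.Tot := by
  have : ProperSpace E := FiniteDimensional.proper ℂ E
  have : SecondCountableTopology F.U := inferInstance
  exact ContinuousConstSMul.secondCountableTopology

theorem isComplexDeformation :
    letI := F.quot.cs
    IsComplexDeformation E F.proj := by
  let _ := F.quot.cs
  have hT2 := F.t2
  have hh : ∀ v ∈ F.quot.U, F.proj (F.quot.Q v) = F.π v := fun v hv => F.proj_Q hv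
  have hd : ∀ v ∈ F.quot.U, DifferentiableAt ℂ F.π v := fun v _ => F.π_diff v
  have hmd := fun y => F.quot.mdifferentiableAt_of_comp_Q hh hd y
  have hcont : Continuous F.proj := by
    rw [continuous_iff_continuousAt]
    exact fun y => (hmd y).1.continuousAt
  refine ⟨inferInstance, F.quot.isManifold, hT2, F.secondCountable, fun y => (hmd y).1, ?_, ?_, ?_, ?_⟩
  · intro y
    rw [(hmd y).2]
    exact F.π_sub _ (F.quot.sec y).2
  · rw [← F.π_range]
    ext t
    constructor
    · rintro ⟨y, rfl⟩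
      obtain ⟨x, hx, rfl⟩ := F.exists_rep y
      exact ⟨x, hx, (F.proj_Q hx).symm⟩
    · rintro ⟨x, hx, rfl⟩
      exact ⟨F.quot.Q x, F.proj_Q hx⟩
  · intro K hK hKc
    obtain ⟨S, hS, hSU, hS2⟩ := F.π_proper K hK hKc
    have hcQ : ContinuousOn F.quot.Q S := fun x hx =>
      (F.quot.continuousAt_Q (hSU hx)).continuousWithinAt
    apply (hS.image_of_continuousOn hcQ).of_isClosed_subset (hKc.isClosed.preimage hcont)
    intro y hy
    obtain ⟨x, hx, rfl⟩ := F.exists_rep y
    obtain ⟨g, hg⟩ := hS2 x hx (by rw [← F.proj_Q hx]; exact hy)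
    exact ⟨_, hg, F.Q_act g hx⟩
  · intro t ht
    have hc := F.π_conn t ht
    have : F.proj ⁻¹' {t} = F.quot.Q '' {x | x ∈ F.U ∧ F.π x = t} := by
      ext y
      constructor
      · intro hy
        obtain ⟨x, hx, rfl⟩ := F.exists_rep y
        exact ⟨x, ⟨hx, by rw [← F.proj_Q hx]; exact hy⟩, rfl⟩
      · rintro ⟨x, ⟨hx, hxt⟩, rfl⟩
        simp only [mem_preimage, mem_singleton_iff]
        rw [F.proj_Q hx, hxt]
    rw [this]
    exact hc.image _ (fun x hx => (F.quot.continuousAt_Q hx.1).continuousWithinAt)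

end HFam

/-- maps to a manifold, defined on a quotient by a lift, are holomorphic -/
lemma DQuot.mdifferentiableAt_of_lift {E : Type} [NormedAddCommGroup E] [NormedSpace ℂ E]
    {M : Type} [TopologicalSpace M] (d : DQuot E M) {Ψ : M → M} {ψ : E → E} {y : M}
    (hΨ : ∀ᶠ v in 𝓝 ((d.sec y : d.U) : E), Ψ (d.Q v) = d.Q (ψ v))
    (hd : DifferentiableAt ℂ ψ (d.sec y)) (hU : ψ (d.sec y) ∈ d.U) :
    letI := d.cs
    MDifferentiableAt 𝓘(ℂ, E) 𝓘(ℂ, E) Ψ y := by
  let _ := d.cs
  have hman : IsManifold 𝓘(ℂ, E) ω M := d.isManifold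
  have hman1 : IsManifold 𝓘(ℂ, E) 1 M := IsManifold.of_le (n := ω) le_top
  have h1 : MDifferentiableAt 𝓘(ℂ, E) 𝓘(ℂ, E) (fun v => d.Q (ψ v)) ((d.sec y : d.U) : E) :=
    d.mdifferentiableAt_Q hd hU
  have h2 : MDifferentiableAt 𝓘(ℂ, E) 𝓘(ℂ, E) (extChartAt 𝓘(ℂ, E) y) y :=
    mdifferentiableAt_extChartAt (mem_chart_source E y)
  have h3 : extChartAt 𝓘(ℂ, E) y y = ((d.sec y : d.U) : E) := d.extChartAt_self y
  have h4 : MDifferentiableAt 𝓘(ℂ, E) 𝓘(ℂ, E)
      ((fun v => d.Q (ψ v)) ∘ (extChartAt 𝓘(ℂ, E) y)) y := by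
    refine MDifferentiableAt.comp y ?_ h2
    rw [h3]
    exact h1
  refine h4.congr_of_eventuallyEq ?_
  have h5 : ∀ᶠ z in 𝓝 y, z ∈ (extChartAt 𝓘(ℂ, E) y).source :=
    extChartAt_source_mem_nhds y
  have h6 : ∀ᶠ z in 𝓝 y, Ψ (d.Q (extChartAt 𝓘(ℂ, E) y z)) =
      d.Q (ψ (extChartAt 𝓘(ℂ, E) y z)) := by
    have h7 := h2.continuousAt
    rw [ContinuousAt, h3] at h7
    exact h7.eventually hΨ
  filter_upwards [h5, h6] with z hz1 hz2
  have h8 : d.Q (extChartAt 𝓘(ℂ, E) y z) = z := by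
    have := (extChartAt 𝓘(ℂ, E) y).left_inv hz1
    rwa [d.extChartAt_symm_coe] at this
  rw [h8] at hz2
  rw [hz2]
  rfl

end Pool.Agent.H63.ME
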